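import Mathlib
import Pool.Agent.Lib.MP_9a1873_nt.Upper

/-!
# Maxima of derivatives of zeta versus maxima of zeta: the answer to Q1

For `0 < σ < 1`, `ℓ ≥ 1` and every `ε > 0` we prove
`(log T)^{-ε} M_0(σ,T) ≪ M_ℓ(σ,T) ≪ (log T)^{2ℓ} M_0(σ,T)` for all large `T`.
-/

open Complex Set Filter Topology

namespace Pool.Agent.Results.MP_9a1873_nt.TwoSidedQ1

/-- `maxZeta ℓ σ T` is the maximum `M_ℓ(σ,T)` over `T ≤ t ≤ 2T` of `|ζ^{(ℓ)}(σ + it)|`. -/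
noncomputable def maxZeta (l : ℕ) (σ T : ℝ) : ℝ :=
  sSup ((fun t : ℝ => ‖iteratedDeriv l riemannZeta (σ + t * I)‖) '' Set.Icc T (2 * T))

lemma eventually_loglog_le (l : ℕ) (hl : 1 ≤ l) {ε : ℝ} (hε : 0 < ε) :
    ∀ᶠ T : ℝ in atTop, Real.log (8 * Real.log T) ^ l ≤ (8 : ℝ) ^ ε * Real.log T ^ ε := by
  have hl0 : (0 : ℝ) < l := by exact_mod_cast hl
  have h1 : ∀ᶠ y : ℝ in atTop, ‖Real.log y‖ ≤ 1 * ‖y ^ (ε / l)‖ :=
    (isLittleO_log_rpow_atTop (div_pos hε hl0)).def one_pos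
  have h2 : Tendsto (fun T : ℝ => 8 * Real.log T) atTop atTop :=
    Real.tendsto_log_atTop.const_mul_atTop (by norm_num)
  filter_upwards [h2.eventually h1, h2.eventually_ge_atTop 1,
    Real.tendsto_log_atTop.eventually_ge_atTop 1] with T h3 h4 h5
  have hx : 0 < 8 * Real.log T := by linarith
  have h6 : 0 ≤ Real.log (8 * Real.log T) := Real.log_nonneg h4
  rw [Real.norm_of_nonneg h6, one_mul, Real.norm_of_nonneg (Real.rpow_nonneg hx.le _)] at h3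
  calc Real.log (8 * Real.log T) ^ l ≤ ((8 * Real.log T) ^ (ε / l)) ^ l :=
        pow_le_pow_left₀ h6 h3 l
    _ = (8 * Real.log T) ^ ε := by
        rw [← Real.rpow_natCast, ← Real.rpow_mul hx.le]
        congr 1
        field_simp
    _ = (8 : ℝ) ^ ε * Real.log T ^ ε := Real.mul_rpow (by norm_num) (by linarith)

/-- **Answer to Q1.** For every `ℓ ≥ 1`, `0 < σ < 1` and `ε > 0`, for all large `T`,
`(log T)^{-ε} M_0(σ,T) ≤ K M_ℓ(σ,T)` and `M_ℓ(σ,T) ≤ K (log T)^{2ℓ} M_0(σ,T)`. -/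
theorem result (l : ℕ) (hl : 1 ≤ l) (σ : ℝ) (hσ0 : 0 < σ) (hσ1 : σ < 1) (ε : ℝ) (hε : 0 < ε) :
    ∃ K : ℝ, 0 < K ∧ ∃ T₀ : ℝ, ∀ T : ℝ, T₀ ≤ T →
      Real.log T ^ (-ε) * maxZeta 0 σ T ≤ K * maxZeta l σ T ∧
      maxZeta l σ T ≤ K * (Real.log T ^ (2 * (l : ℝ)) * maxZeta 0 σ T) := by
  have hM : ∀ (j : ℕ) (T : ℝ), maxZeta j σ T = Pool.Agent.Lib.MP_9a1873_nt.M j σ T :=
    fun _ _ => rfl
  simp only [hM]
  obtain ⟨C₁, hC₁, hlow⟩ := Pool.Agent.Lib.MP_9a1873_nt.lower l hσ0 hσ1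
  obtain ⟨C₂, hC₂, hup⟩ := Pool.Agent.Lib.MP_9a1873_nt.upper l hσ0 hσ1
  have h8 : (0 : ℝ) < (8 : ℝ) ^ ε := Real.rpow_pos_of_pos (by norm_num) _
  refine ⟨max (C₁ * (8 : ℝ) ^ ε) C₂, lt_max_of_lt_right hC₂, ?_⟩
  have hev : ∀ᶠ T : ℝ in atTop,
      Real.log T ^ (-ε) * Pool.Agent.Lib.MP_9a1873_nt.M 0 σ T ≤
        max (C₁ * (8 : ℝ) ^ ε) C₂ * Pool.Agent.Lib.MP_9a1873_nt.M l σ T ∧
      Pool.Agent.Lib.MP_9a1873_nt.M l σ T ≤ max (C₁ * (8 : ℝ) ^ ε) C₂ *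
        (Real.log T ^ (2 * (l : ℝ)) * Pool.Agent.Lib.MP_9a1873_nt.M 0 σ T) := by
    filter_upwards [hlow, hup, eventually_loglog_le l hl hε,
      Real.tendsto_log_atTop.eventually_ge_atTop 1] with T h1 h2 h3 h4
    have hlog : 0 < Real.log T := by linarith
    have hM0 := Pool.Agent.Lib.MP_9a1873_nt.M_nonneg 0 σ T
    have hMl := Pool.Agent.Lib.MP_9a1873_nt.M_nonneg l σ T
    constructor
    · have h5 : Pool.Agent.Lib.MP_9a1873_nt.M 0 σ T ≤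
          C₁ * ((8 : ℝ) ^ ε * Real.log T ^ ε) * Pool.Agent.Lib.MP_9a1873_nt.M l σ T :=
        h1.trans (mul_le_mul_of_nonneg_right (mul_le_mul_of_nonneg_left h3 hC₁.le) hMl)
      have h6 : Real.log T ^ (-ε) * Real.log T ^ ε = 1 := by
        rw [← Real.rpow_add hlog]; simp
      calc Real.log T ^ (-ε) * Pool.Agent.Lib.MP_9a1873_nt.M 0 σ T
          ≤ Real.log T ^ (-ε) * (C₁ * ((8 : ℝ) ^ ε * Real.log T ^ ε) *
              Pool.Agent.Lib.MP_9a1873_nt.M l σ T) :=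
            mul_le_mul_of_nonneg_left h5 (Real.rpow_nonneg hlog.le _)
        _ = C₁ * (8 : ℝ) ^ ε * (Real.log T ^ (-ε) * Real.log T ^ ε) *
              Pool.Agent.Lib.MP_9a1873_nt.M l σ T := by ring
        _ = C₁ * (8 : ℝ) ^ ε * Pool.Agent.Lib.MP_9a1873_nt.M l σ T := by rw [h6, mul_one]
        _ ≤ max (C₁ * (8 : ℝ) ^ ε) C₂ * Pool.Agent.Lib.MP_9a1873_nt.M l σ T :=
            mul_le_mul_of_nonneg_right (le_max_left _ _) hMl
    · have h7 : Real.log T ^ (2 * (l : ℝ)) = Real.log T ^ (2 * l) := by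
        rw [← Real.rpow_natCast]; push_cast; rfl
      rw [h7]
      calc Pool.Agent.Lib.MP_9a1873_nt.M l σ T
          ≤ C₂ * Real.log T ^ (2 * l) * Pool.Agent.Lib.MP_9a1873_nt.M 0 σ T := h2
        _ = C₂ * (Real.log T ^ (2 * l) * Pool.Agent.Lib.MP_9a1873_nt.M 0 σ T) := by ring
        _ ≤ _ := mul_le_mul_of_nonneg_right (le_max_right _ _) (by positivity)
  obtain ⟨T₀, hT₀⟩ := eventually_atTop.mp hev
  exact ⟨T₀, hT₀⟩

end Pool.Agent.Results.MP_9a1873_nt.TwoSidedQ1
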